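import Pool.Agent.Helper90.CfP

/-!
# The forcing theorem does not prevent proper classes from becoming sets (MP_a83877_lc, Q1)

Full negative answer.  The model `(M, C)` is obtained from a countable closure `N` of the full
second-order structure `(HC, P(HC))` over the hereditarily countable sets: `M = N ∩ HC` and
`C = {X ∩ M : X ∈ N}`.  Since `C` is closed under much more than first-order comprehension, the
forcing relations are classes and the forcing theorem holds.  A condition consists of finitely many
facts `k ∈ g(n)` and finitely many promises `g(n) = x` (`x` a real of `M`); the countable name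
`{(τ_n, 1) : n ∈ ω}`, where `τ_n = {(k, {k ∈ g(n)}) : k ∈ ω}`, evaluates to the proper class of
all reals of `M`.
-/

namespace Pool.Agent.Results.MP_a83877_lc.ClassBecomesSet

open Pool.Agent.Helper90.Cf

/-- There are a countable transitive second-order model `(M, C)` of `GB⁻` and a notion of class
forcing `⟨P, le⟩` for it which satisfies the forcing theorem over `(M, C)` and which nevertheless
turns a proper class of the ground model into a set: for some set-sized name `σ ∈ M^P` and some
generic filter `G`, the evaluation `σ^G` is a class in `C` which is not a set in `M`. -/
theorem result : ∃ M C : ZFSet.{0}, {x | x ∈ M}.Countable ∧ {x | x ∈ C}.Countable ∧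
    IsModel M C ∧ GBMinus M C ∧ ∃ P le : ZFSet.{0}, IsNotion C P le ∧ ForcingTheorem M C P le ∧
      ∃ σ ∈ M, IsName P σ ∧ ∃ G : Set ZFSet.{0}, IsGeneric C P le G ∧
        val G σ ∈ C ∧ val G σ ∉ M :=
  main

end Pool.Agent.Results.MP_a83877_lc.ClassBecomesSet
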